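import Pool.Agent.LibHW51.Lin

set_option linter.unusedSimpArgs false

open Polynomial Module

namespace Pool.Agent.LibHW51

section

variable {K V : Type*} [Field K] [AddCommGroup V] [Module K V]

lemma pow_apply_eig (f : End K V) (μ : K) (w : V) (hw : f w = μ • w) (j : ℕ) :
    (f ^ j) w = μ ^ j • w := by
  induction j with
  | zero => simp
  | succ j ih => rw [pow_succ, Module.End.mul_apply, hw, map_smul, ih, smul_smul, pow_succ, mul_comm]

lemma pow_apply_chain (f : End K V) (μ : K) (v w : V) (hv : f v = μ • v + w) (hw : f w = μ • w)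
    (j : ℕ) : (f ^ j) v = μ ^ j • v + ((j : K) * μ ^ (j - 1)) • w := by
  induction j with
  | zero => simp
  | succ j ih =>
    rw [pow_succ, Module.End.mul_apply, hv, map_add, map_smul, ih, pow_apply_eig f μ w hw]
    rcases j with _ | j
    · simp
    · simp only [Nat.add_sub_cancel, Nat.cast_add, Nat.cast_one, smul_add, smul_smul]
      rw [add_assoc, ← add_smul]
      congr 2
      · ring
      · ring

variable [FiniteDimensional K V]

lemma noChain_of_form [CharZero K] [IsAlgClosed K] (f : End K V) (q : K) (hq : q ≠ 0)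
    (B : V →ₗ[K] V →ₗ[K] K) (hsymm : ∀ x y, B x y = B y x) (hnd : ∀ x, (∀ y, B x y = 0) → x = 0)
    (hsim : ∀ x y, B (f x) (f y) = q ^ 2 * B x y) (ρ : ℕ) (z : Fin ρ → V) (k : ℕ) (hk : 0 < k)
    (hz : ∀ i, (f ^ k) (z i) = q ^ k • z i)
    (hG : (Matrix.of fun i j => B (z i) (z j)).det ≠ 0)
    (T : K → Prop) [DecidablePred T] (hT : ∀ μ, ∀ n : ℕ, 0 < n → μ ^ n = q ^ n → T μ)
    (hc : (f.charpoly.roots.filter T).card ≤ ρ + 2) (μ : K) (n : ℕ) (hn : 0 < n)
    (hμ : μ ^ n = q ^ n) : NoChain f μ := by
  intro v hv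
  by_contra hw0
  set w := (f - algebraMap K (End K V) μ) v with hwdef
  have hfv : f v = μ • v + w := by
    rw [hwdef, LinearMap.sub_apply, Module.algebraMap_end_apply]
    abel
  have hfw : f w = μ • w := by
    rw [LinearMap.sub_apply, Module.algebraMap_end_apply, sub_eq_zero] at hv
    exact hv
  have hμ0 : μ ≠ 0 := by
    rintro rfl
    rw [zero_pow hn.ne'] at hμ
    exact hq (pow_eq_zero_iff hn.ne' |>.mp hμ.symm)
  set N := k * n with hN
  have hNpos : 0 < N := Nat.mul_pos hk hn
  set g := f ^ N with hg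
  set l := q ^ N with hl
  have hl0 : l ≠ 0 := pow_ne_zero _ hq
  have hμN : μ ^ N = l := by
    rw [hl, hN, mul_comm k n, pow_mul, hμ, ← pow_mul]
  obtain ⟨w1, hw1ne, hgv, hgw1⟩ : ∃ w1 : V, w1 ≠ 0 ∧ g v = l • v + w1 ∧ g w1 = l • w1 := by
    refine ⟨((N : K) * μ ^ (N - 1)) • w, ?_, ?_, ?_⟩
    · rw [smul_ne_zero_iff]
      refine ⟨mul_ne_zero ?_ (pow_ne_zero _ hμ0), hw0⟩
      exact_mod_cast hNpos.ne'
    · rw [hg, pow_apply_chain f μ v w hfv hfw, hμN]
    · rw [hg, map_smul, pow_apply_eig f μ w hfw, hμN, smul_smul, smul_smul, mul_comm]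
  have hgz : ∀ i, g (z i) = l • z i := by
    intro i
    rw [hg, hN, pow_mul, hl, hN, pow_mul]
    exact pow_apply_eig (f ^ k) (q ^ k) (z i) (hz i) n
  have hgsim : ∀ x y, B (g x) (g y) = l ^ 2 * B x y := by
    have h1 : ∀ j : ℕ, ∀ x y, B ((f ^ j) x) ((f ^ j) y) = (q ^ j) ^ 2 * B x y := by
      intro j
      induction j with
      | zero => intro x y; simp
      | succ j ih =>
        intro x y
        rw [pow_succ, Module.End.mul_apply, Module.End.mul_apply, ih, hsim]
        ring
    exact h1 N
  -- decomposition of v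
  obtain ⟨c, hcoef⟩ : ∃ c : Fin ρ → K, ∀ j, ∑ i, c i * B (z i) (z j) = B v (z j) := by
    refine ⟨Matrix.vecMul (fun j => B v (z j)) (Matrix.of fun i j => B (z i) (z j))⁻¹, ?_⟩
    intro j
    have h1 : Matrix.vecMul (Matrix.vecMul (fun j => B v (z j))
        (Matrix.of fun i j => B (z i) (z j))⁻¹) (Matrix.of fun i j => B (z i) (z j)) =
        (fun j => B v (z j)) := by
      rw [Matrix.vecMul_vecMul, Matrix.nonsing_inv_mul _ (isUnit_iff_ne_zero.mpr hG),
        Matrix.vecMul_one]
    have h2 := congrFun h1 j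
    rw [Matrix.vecMul, dotProduct] at h2
    simpa using h2
  set zz := ∑ i, c i • z i with hzz
  set x := v - zz with hx
  have hBxz : ∀ j, B x (z j) = 0 := by
    intro j
    rw [hx, map_sub, LinearMap.sub_apply, hzz, map_sum, LinearMap.sum_apply, ← hcoef j]
    simp
  have hgzz : g zz = l • zz := by
    rw [hzz, map_sum, Finset.smul_sum]
    apply Finset.sum_congr rfl
    intro i _
    rw [map_smul, hgz i, smul_comm]
  have hgx : g x = l • x + w1 := by
    rw [hx, map_sub, hgv, hgzz, smul_sub]
    abel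
  have hBw1z : ∀ j, B w1 (z j) = 0 := by
    intro j
    have h1 := hgsim x (z j)
    rw [hBxz j, mul_zero, hgx, hgz j, map_smul, map_add, LinearMap.add_apply, map_smul,
      LinearMap.smul_apply, hBxz j, smul_zero, zero_add, smul_eq_mul] at h1
    exact (mul_eq_zero.mp h1).resolve_left hl0
  have hBww : B w1 w1 = 0 := by
    have h1 := hgsim x w1
    rw [hgx, hgw1] at h1
    simp only [map_add, map_smul, LinearMap.add_apply, LinearMap.smul_apply, smul_eq_mul] at h1
    have h2 : l * B w1 w1 = 0 := by linear_combination h1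
    exact (mul_eq_zero.mp h2).resolve_left hl0
  have hBxw : B x w1 = 0 := by
    have h1 := hgsim x x
    rw [hgx] at h1
    simp only [map_add, map_smul, LinearMap.add_apply, LinearMap.smul_apply, smul_eq_mul] at h1
    rw [hBww, hsymm w1 x] at h1
    have h2 : (2 * l) * B x w1 = 0 := by linear_combination h1
    exact (mul_eq_zero.mp h2).resolve_left (mul_ne_zero two_ne_zero hl0)
  -- the generalised eigenspace
  set W := g.maxGenEigenspace l with hW
  have hWdim : finrank K W ≤ ρ + 2 :=
    (finrank_pow_le f q N hNpos T (fun μ h => hT μ N hNpos h)).trans hc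
  have memW1 : ∀ y, g y = l • y → y ∈ W := by
    intro y hy
    rw [hW, End.mem_maxGenEigenspace]
    refine ⟨1, ?_⟩
    rw [pow_one, LinearMap.sub_apply, LinearMap.smul_apply, Module.End.one_apply, hy, sub_self]
  have hxW : x ∈ W := by
    rw [hW, End.mem_maxGenEigenspace]
    refine ⟨2, ?_⟩
    have h1 : (g - l • (1 : End K V)) x = w1 := by
      rw [LinearMap.sub_apply, LinearMap.smul_apply, Module.End.one_apply, hgx]
      abel
    rw [pow_two, Module.End.mul_apply, h1, LinearMap.sub_apply, LinearMap.smul_apply,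
      Module.End.one_apply, hgw1, sub_self]
  let F : Fin ρ ⊕ Fin 2 → W := Sum.elim (fun i => ⟨z i, memW1 _ (hgz i)⟩)
    ![⟨x, hxW⟩, ⟨w1, memW1 _ hgw1⟩]
  have hFind : LinearIndependent K F := by
    rw [Fintype.linearIndependent_iff]
    intro d hd
    have h1 : ∑ i : Fin ρ, d (Sum.inl i) • z i + (d (Sum.inr 0) • x + d (Sum.inr 1) • w1) = 0 := by
      have h2 := congrArg Subtype.val hd
      simpa [F, Fintype.sum_sum_type, Fin.sum_univ_two] using h2
    have h3 : ∀ j, ∑ i : Fin ρ, d (Sum.inl i) * B (z i) (z j) = 0 := by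
      intro j
      have h4 : B (∑ i : Fin ρ, d (Sum.inl i) • z i + (d (Sum.inr 0) • x + d (Sum.inr 1) • w1)) (z j)
          = 0 := by rw [h1]; simp
      simpa [hBxz j, hBw1z j, map_sum, LinearMap.sum_apply] using h4
    have h5 : ∀ i, d (Sum.inl i) = 0 := by
      have h6 : Matrix.vecMul (fun i => d (Sum.inl i)) (Matrix.of fun i j => B (z i) (z j)) = 0 := by
        ext j
        rw [Matrix.vecMul, dotProduct]
        simpa using h3 j
      have h7 := Matrix.eq_zero_of_vecMul_eq_zero hG h6
      intro i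
      exact congrFun h7 i
    have h8 : d (Sum.inr 0) • x + d (Sum.inr 1) • w1 = 0 := by
      simpa [h5] using h1
    have h9 : d (Sum.inr 0) = 0 := by
      have h10 : g (d (Sum.inr 0) • x + d (Sum.inr 1) • w1) = 0 := by rw [h8, map_zero]
      rw [map_add, map_smul, map_smul, hgx, hgw1] at h10
      have h11 : d (Sum.inr 0) • w1 = 0 := by
        have h12 : l • (d (Sum.inr 0) • x + d (Sum.inr 1) • w1) + d (Sum.inr 0) • w1 = 0 := by
          rw [← h10]
          simp only [smul_add, smul_smul]
          rw [mul_comm l, mul_comm l]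
          abel
        rwa [h8, smul_zero, zero_add] at h12
      exact (smul_eq_zero.mp h11).resolve_right hw1ne
    have h13 : d (Sum.inr 1) = 0 := by
      rw [h9, zero_smul, zero_add] at h8
      exact (smul_eq_zero.mp h8).resolve_right hw1ne
    intro i
    rcases i with i | i
    · exact h5 i
    · fin_cases i
      · exact h9
      · exact h13
  have hcard : Fintype.card (Fin ρ ⊕ Fin 2) = finrank K W := by
    apply le_antisymm
    · exact hFind.fintype_card_le_finrank
    · simpa using hWdim
  have hspan := hFind.span_eq_top_of_card_eq_finrank' hcard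
  have hWorth : ∀ y ∈ W, B w1 y = 0 := by
    intro y hy
    have h1 : (⟨y, hy⟩ : W) ∈ Submodule.span K (Set.range F) := by rw [hspan]; trivial
    have h2 : ∀ t ∈ Submodule.span K (Set.range F), B w1 (t : V) = 0 := by
      intro t ht
      induction ht using Submodule.span_induction with
      | mem t ht =>
        obtain ⟨i, rfl⟩ := ht
        rcases i with i | i
        · exact hBw1z i
        · fin_cases i
          · change B w1 x = 0
            rw [hsymm, hBxw]
          · exact hBww
      | zero => simp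
      | add a b _ _ ha hb => rw [Submodule.coe_add, map_add, ha, hb, add_zero]
      | smul a b _ hb => rw [Submodule.coe_smul, map_smul, hb, smul_zero]
    exact h2 _ h1
  have hrange : ∀ y, B w1 ((g - l • (1 : End K V)) y) = 0 := by
    intro y
    have h1 := hgsim w1 y
    rw [hgw1, map_smul, LinearMap.smul_apply, smul_eq_mul] at h1
    have h2 : B w1 (g y) = l * B w1 y := by
      have h3 : l * (B w1 (g y) - l * B w1 y) = 0 := by linear_combination h1
      exact sub_eq_zero.mp ((mul_eq_zero.mp h3).resolve_left hl0)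
    rw [LinearMap.sub_apply, LinearMap.smul_apply, Module.End.one_apply, map_sub, map_smul, h2,
      smul_eq_mul, sub_self]
  apply hw1ne
  apply hnd
  intro y
  obtain ⟨m, hm⟩ := Filter.eventually_atTop.mp
    (LinearMap.eventually_isCompl_ker_pow_range_pow (g - l • (1 : End K V)))
  have hm1 := hm (m + 1) (by omega)
  have hy : y ∈ (⊤ : Submodule K V) := trivial
  rw [← hm1.sup_eq_top, Submodule.mem_sup] at hy
  obtain ⟨y0, hy0, y1, hy1, rfl⟩ := hy
  rw [map_add]
  have h0 : B w1 y0 = 0 := by
    apply hWorth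
    rw [hW, End.mem_maxGenEigenspace]
    exact ⟨m + 1, hy0⟩
  have h1 : B w1 y1 = 0 := by
    obtain ⟨y2, rfl⟩ := hy1
    rw [pow_succ', Module.End.mul_apply]
    exact hrange _
  rw [h0, h1, add_zero]

end

end Pool.Agent.LibHW51
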