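import Mathlib

set_option linter.unusedSimpArgs false

open Polynomial Module

namespace Pool.Agent.LibHW51

section

variable {K V : Type*} [Field K] [AddCommGroup V] [Module K V] [FiniteDimensional K V]

lemma finrank_sup_le (s : Finset K) (g : K → Submodule K V) :
    finrank K (s.sup g : Submodule K V) ≤ ∑ μ ∈ s, finrank K (g μ) := by
  classical
  induction s using Finset.induction_on with
  | empty => simp
  | insert a s ha ih =>
    rw [Finset.sup_insert, Finset.sum_insert ha]
    exact (Submodule.finrank_add_le_finrank_add_finrank _ _).trans (by omega)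

lemma ker_prod_le (f : End K V) (s : Finset K) (e : K → ℕ) :
    LinearMap.ker (aeval f (∏ μ ∈ s, (X - C μ) ^ e μ)) ≤ s.sup (fun μ => f.maxGenEigenspace μ) := by
  classical
  induction s using Finset.induction_on with
  | empty =>
    simp only [Finset.prod_empty, map_one, Finset.sup_empty, le_bot_iff]
    exact LinearMap.ker_eq_bot.mpr (fun x y h => by simpa using h)
  | insert a s ha ih =>
    rw [Finset.prod_insert ha, Finset.sup_insert]
    have hcop : IsCoprime ((X - C a : K[X]) ^ e a) (∏ μ ∈ s, (X - C μ) ^ e μ) := by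
      apply IsCoprime.pow_left
      apply IsCoprime.prod_right
      intro μ hμ
      apply IsCoprime.pow_right
      apply isCoprime_X_sub_C_of_isUnit_sub
      rw [isUnit_iff_ne_zero, sub_ne_zero]
      rintro rfl
      exact ha hμ
    rw [← sup_ker_aeval_eq_ker_aeval_mul_of_coprime f hcop]
    apply sup_le_sup _ ih
    intro x hx
    rw [End.mem_maxGenEigenspace]
    refine ⟨e a, ?_⟩
    rw [LinearMap.mem_ker, map_pow, map_sub, aeval_X, aeval_C] at hx
    exact hx

/-- The generalised eigenspace of `f ^ N` for `q ^ N` has dimension at most the number of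
eigenvalues `μ` of `f` with `μ ^ N = q ^ N`. -/
lemma finrank_pow_le [IsAlgClosed K] (f : End K V) (q : K) (N : ℕ) (hN : 0 < N)
    (T : K → Prop) [DecidablePred T] (hT : ∀ μ, μ ^ N = q ^ N → T μ) :
    finrank K ((f ^ N).maxGenEigenspace (q ^ N)) ≤ (f.charpoly.roots.filter T).card := by
  classical
  set R : Finset K := (X ^ N - C (q ^ N) : K[X]).roots.toFinset with hR
  have hne : (X ^ N - C (q ^ N) : K[X]) ≠ 0 := X_pow_sub_C_ne_zero hN _
  have hle : (f ^ N).maxGenEigenspace (q ^ N) ≤ R.sup (fun μ => f.maxGenEigenspace μ) := by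
    intro x hx
    rw [End.mem_maxGenEigenspace] at hx
    obtain ⟨m, hm⟩ := hx
    have hprod : (X ^ N - C (q ^ N) : K[X]) =
        ∏ μ ∈ R, (X - C μ) ^ ((X ^ N - C (q ^ N) : K[X]).roots.count μ) := by
      have h1 := (IsAlgClosed.splits (X ^ N - C (q ^ N) : K[X])).eq_prod_roots
      rw [(monic_X_pow_sub_C _ hN.ne').leadingCoeff, C_1, one_mul] at h1
      conv_lhs => rw [h1]
      rw [Finset.prod_multiset_map_count]
    have hx2 : x ∈ LinearMap.ker (aeval f ((X ^ N - C (q ^ N) : K[X]) ^ m)) := by
      rw [LinearMap.mem_ker, map_pow, map_sub, map_pow, aeval_X, aeval_C]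
      exact hm
    rw [hprod, ← Finset.prod_pow] at hx2
    simp only [← pow_mul] at hx2
    exact ker_prod_le f R _ hx2
  refine (Submodule.finrank_mono hle).trans ((finrank_sup_le R _).trans ?_)
  have hcount : ∀ μ : K, finrank K (f.maxGenEigenspace μ) = f.charpoly.roots.count μ := by
    intro μ
    rw [LinearMap.finrank_maxGenEigenspace_eq, count_roots]
  simp only [hcount]
  have h2 : ∑ μ ∈ R, f.charpoly.roots.count μ = (f.charpoly.roots.filter (· ∈ R)).card := by
    rw [← Multiset.sum_count_eq_card (s := R)]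
    · apply Finset.sum_congr rfl
      intro μ hμ
      rw [Multiset.count_filter_of_pos hμ]
    · intro μ hμ
      exact (Multiset.mem_filter.mp hμ).2
  rw [h2]
  apply Multiset.card_le_card
  apply Multiset.monotone_filter_right
  intro μ hμ
  apply hT
  rw [hR, Multiset.mem_toFinset, mem_roots hne, IsRoot.def, eval_sub, eval_pow, eval_X, eval_C,
    sub_eq_zero] at hμ
  exact hμ

/-- No Jordan chain of length two at `μ`. -/
def NoChain (f : End K V) (μ : K) : Prop :=
  ∀ v, (f - algebraMap K (End K V) μ) ((f - algebraMap K (End K V) μ) v) = 0 →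
    (f - algebraMap K (End K V) μ) v = 0

lemma noChain_of_simple (f : End K V) (μ : K) (h : f.charpoly.rootMultiplicity μ ≤ 1) :
    NoChain f μ := by
  intro v hv
  set w := (f - algebraMap K (End K V) μ) v with hw
  have hv1 : v ∈ f.maxGenEigenspace μ := by
    rw [End.mem_maxGenEigenspace]
    refine ⟨2, ?_⟩
    rw [pow_two, Module.End.mul_apply]
    exact hv
  have hw1 : w ∈ f.maxGenEigenspace μ := by
    rw [End.mem_maxGenEigenspace]
    refine ⟨1, ?_⟩
    rw [pow_one]
    exact hv
  have hfr : finrank K (f.maxGenEigenspace μ) ≤ 1 := by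
    rw [LinearMap.finrank_maxGenEigenspace_eq]
    exact h
  obtain ⟨v0, hv0⟩ := finrank_le_one_iff.mp hfr
  obtain ⟨c, hc⟩ := hv0 ⟨v, hv1⟩
  obtain ⟨d, hd⟩ := hv0 ⟨w, hw1⟩
  have hc' : c • (v0 : V) = v := congrArg Subtype.val hc
  have hd' : d • (v0 : V) = w := congrArg Subtype.val hd
  by_contra hw0
  have hc0 : c ≠ 0 := by
    rintro rfl
    apply hw0
    rw [zero_smul] at hc'
    rw [hw, ← hc', map_zero]
  have h1 : w = (d / c) • v := by
    rw [← hd', ← hc', smul_smul, div_mul_cancel₀ _ hc0]
  have h2 : (f - algebraMap K (End K V) μ) w = (d / c) • w := by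
    conv_lhs => rw [h1, map_smul]
  rw [hv] at h2
  rcases smul_eq_zero.mp h2.symm with h3 | h3
  · rw [h3, zero_smul] at h1
    exact hw0 h1
  · exact hw0 h3

lemma minpoly_mult_of_noChain (f : End K V) (μ : K) (h : NoChain f μ) :
    (minpoly K f).rootMultiplicity μ ≤ 1 := by
  have hm0 : minpoly K f ≠ 0 := minpoly.ne_zero (Algebra.IsIntegral.isIntegral f)
  by_contra hcon
  have h2 : (X - C μ) ^ 2 ∣ minpoly K f := (le_rootMultiplicity_iff hm0).mp (by omega)
  obtain ⟨g, hg⟩ := h2
  have hfac : minpoly K f = (X - C μ) * ((X - C μ) * g) := by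
    rw [hg]; ring
  have hz : aeval f ((X - C μ) * g) = 0 := by
    ext v
    have h1 : aeval f (minpoly K f) v = 0 := by rw [minpoly.aeval]; rfl
    rw [hfac, map_mul, map_mul, Module.End.mul_apply, Module.End.mul_apply, map_sub, aeval_X, aeval_C] at h1
    rw [map_mul, Module.End.mul_apply, map_sub, aeval_X, aeval_C, LinearMap.zero_apply]
    exact h _ h1
  have h2 := minpoly.dvd K f hz
  have h3 : ((X - C μ) * g : K[X]) ≠ 0 := by
    intro h4
    rw [h4, mul_zero] at hfac
    exact hm0 hfac
  have h5 := natDegree_le_of_dvd h2 h3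
  rw [hfac, natDegree_mul (X_sub_C_ne_zero μ) h3, natDegree_X_sub_C] at h5
  omega

end

end Pool.Agent.LibHW51
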