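import Pool.Agent.LibHW51.Root
import Pool.Agent.LibHW51.Form

set_option linter.unusedSimpArgs false

open Polynomial Module Matrix

namespace Pool.Agent.LibHW51

/-- The number of roots of `P`, counted with multiplicity, of the form `q` times a root of
unity. -/
noncomputable def tateCount {K : Type*} [Field K] (q : K) (P : K[X]) : ℕ := by
  classical
  exact (P.roots.filter fun μ => ∃ n : ℕ, 0 < n ∧ μ ^ n = q ^ n).card

/-- With enough algebraic classes the eigenvalues `q` times a root of unity are semisimple. -/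
theorem tate_semisimple {K : Type*} [Field K] [CharZero K] [IsAlgClosed K] {b : ℕ}
    (A S : Matrix (Fin b) (Fin b) K) (q : K) (hq : q ≠ 0)
    (hS : Sᵀ = S) (hS0 : S.det ≠ 0) (hAS : Aᵀ * S * A = q ^ 2 • S) (ρ : ℕ)
    (z : Fin ρ → Fin b → K) (k : ℕ) (hk : 0 < k) (hz : ∀ i, (A ^ k) *ᵥ z i = q ^ k • z i)
    (hG : (Matrix.of fun i j => z i ⬝ᵥ S *ᵥ z j).det ≠ 0)
    (hc : tateCount q A.charpoly ≤ ρ + 2) (μ : K) (n : ℕ) (hn : 0 < n) (hn' : μ ^ n = q ^ n) :
    (minpoly K A).rootMultiplicity μ ≤ 1 := by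
  classical
  set f : End K (Fin b → K) := Matrix.toLin' A with hf
  have hfv : ∀ v, f v = A *ᵥ v := fun v => Matrix.toLin'_apply A v
  have hchar : f.charpoly = A.charpoly := by
    rw [hf, ← Matrix.charpoly_toLin' A]
  have hmin : minpoly K A = minpoly K f := by
    rw [hf]
    exact (Matrix.minpoly_toLin' A).symm
  rw [hmin]
  apply minpoly_mult_of_noChain
  refine noChain_of_form f q hq (Matrix.toBilin' S) ?_ ?_ ?_ ρ z k hk ?_ ?_
    (fun μ => ∃ n : ℕ, 0 < n ∧ μ ^ n = q ^ n) (fun μ n h1 h2 => ⟨n, h1, h2⟩) ?_ μ n hn hn'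
  · intro x y
    rw [Matrix.toBilin'_apply', Matrix.toBilin'_apply', Matrix.dotProduct_mulVec,
      ← Matrix.mulVec_transpose, hS, dotProduct_comm]
  · intro x hx
    have h1 : ∀ y, (x ᵥ* S) ⬝ᵥ y = 0 := by
      intro y
      have h2 := hx y
      rw [Matrix.toBilin'_apply', Matrix.dotProduct_mulVec] at h2
      exact h2
    have h3 : x ᵥ* S = 0 := dotProduct_eq_zero _ h1
    exact Matrix.eq_zero_of_vecMul_eq_zero hS0 h3
  · intro x y
    rw [Matrix.toBilin'_apply', Matrix.toBilin'_apply', hfv, hfv]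
    have h1 : A *ᵥ x ⬝ᵥ S *ᵥ (A *ᵥ y) = x ⬝ᵥ (Aᵀ * S * A) *ᵥ y := by
      rw [Matrix.mulVec_mulVec, Matrix.mul_assoc, ← Matrix.mulVec_mulVec (N := S * A),
        Matrix.dotProduct_mulVec x, Matrix.vecMul_transpose]
    rw [h1, hAS, Matrix.smul_mulVec, dotProduct_smul, smul_eq_mul]
  · intro i
    rw [hf, ← Matrix.toLin'_pow, Matrix.toLin'_apply]
    exact hz i
  · simpa only [Matrix.toBilin'_apply'] using hG
  · rw [hchar]
    exact hc

/-- The multiplicity in the minimal polynomial is at most the one in the characteristic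
polynomial. -/
theorem minpoly_mult_le {K : Type*} [Field K] {b : ℕ} (A : Matrix (Fin b) (Fin b) K) (μ : K) :
    (minpoly K A).rootMultiplicity μ ≤ A.charpoly.rootMultiplicity μ :=
  rootMultiplicity_le_rootMultiplicity_of_dvd (A.charpoly_monic.ne_zero)
    (Matrix.minpoly_dvd_charpoly A) μ

end Pool.Agent.LibHW51
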