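import Mathlib

set_option linter.unusedSimpArgs false

open Polynomial

namespace Pool.Agent.LibHW51

/-- The exponent of `p` in the content of `f (q X)`. -/
noncomputable def kap (p : ℕ) (q : ℤ) (f : ℤ[X]) : ℕ := padicValInt p (f.comp (C q * X)).content

section

variable {p : ℕ} [hp : Fact p.Prime]

lemma comp_ne_zero {q : ℤ} (hq : q ≠ 0) {f : ℤ[X]} (hf : f ≠ 0) : f.comp (C q * X) ≠ 0 := by
  intro h
  apply hf
  ext k
  have h1 : (f.comp (C q * X)).coeff k = 0 := by rw [h]; simp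
  rw [comp_C_mul_X_coeff] at h1
  rcases mul_eq_zero.mp h1 with h2 | h2
  · simpa using h2
  · exact absurd h2 (pow_ne_zero _ hq)

lemma content_ne_zero' {q : ℤ} (hq : q ≠ 0) {f : ℤ[X]} (hf : f ≠ 0) :
    (f.comp (C q * X)).content ≠ 0 := by
  rw [Ne, content_eq_zero_iff]
  exact comp_ne_zero hq hf

lemma kap_mul {q : ℤ} (hq : q ≠ 0) {f g : ℤ[X]} (hf : f ≠ 0) (hg : g ≠ 0) :
    kap p q (f * g) = kap p q f + kap p q g := by
  unfold kap
  rw [mul_comp, content_mul, padicValInt.mul (content_ne_zero' hq hf) (content_ne_zero' hq hg)]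

lemma pow_dvd_content_iff {q : ℤ} (hq : q ≠ 0) {f : ℤ[X]} (hf : f ≠ 0) (m : ℕ) :
    m ≤ kap p q f ↔ ∀ k, (p : ℤ) ^ m ∣ f.coeff k * q ^ k := by
  have h1 : m ≤ kap p q f ↔ (p : ℤ) ^ m ∣ (f.comp (C q * X)).content := by
    rw [padicValInt_dvd_iff m]
    exact ⟨fun h => Or.inr h, fun h => h.resolve_left (content_ne_zero' hq hf)⟩
  rw [h1, dvd_content_iff_C_dvd, C_dvd_iff_dvd_coeff]
  simp only [comp_C_mul_X_coeff]

lemma kap_le_of_coeff (a k : ℕ) {f : ℤ[X]} (h : ¬ (p : ℤ) ∣ f.coeff k) :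
    kap p ((p : ℤ) ^ a) f ≤ a * k := by
  have hp0 : (p : ℤ) ≠ 0 := by exact_mod_cast hp.out.ne_zero
  have hf : f ≠ 0 := by
    rintro rfl
    simp at h
  by_contra hcon
  push Not at hcon
  have h1 := (pow_dvd_content_iff (p := p) (pow_ne_zero a hp0) hf (a * k + 1)).mp (by omega) k
  rw [← pow_mul, pow_succ'] at h1
  exact h ((mul_dvd_mul_iff_right (pow_ne_zero (a * k) hp0)).mp h1)

lemma kap_le_monic (a : ℕ) {f : ℤ[X]} (hf : f.Monic) :
    kap p ((p : ℤ) ^ a) f ≤ a * f.natDegree := by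
  apply kap_le_of_coeff
  rw [hf.coeff_natDegree]
  intro h
  have := Int.natAbs_dvd_natAbs.mpr h
  simp at this
  exact hp.out.one_lt.ne' this

end

/-- Factorisations `Q ^ e * R = X ^ m * G` with `G` prime to `X` and free of `e`-th powers. -/
lemma field_factor {F : Type*} [Field F] (Q R G : F[X]) (m e : ℕ) (hQ : Q.Monic)
    (hG : ∀ π : F[X], Irreducible π → ¬ π ^ e ∣ G) (hG0 : G.coeff 0 ≠ 0)
    (h : Q ^ e * R = X ^ m * G) :
    Q = X ^ Q.natDegree ∧ e * Q.natDegree ≤ m ∧ R = X ^ (m - e * Q.natDegree) * G := by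
  have hXG : ¬ X ∣ G := by
    rw [X_dvd_iff]
    exact hG0
  have hcopX : IsCoprime G (X : F[X]) := by
    rw [isCoprime_comm]
    exact (irreducible_X.coprime_iff_not_dvd).mpr hXG
  -- the part of `Q` prime to `X`
  obtain ⟨Q0, hQ0, hQ0'⟩ : ∃ Q0 : F[X], Q = X ^ (Q.rootMultiplicity 0) * Q0 ∧ ¬ X ∣ Q0 := by
    obtain ⟨Q0, h1, h2⟩ := exists_eq_pow_rootMultiplicity_mul_and_not_dvd Q hQ.ne_zero 0
    rw [C_0, sub_zero] at h1 h2
    exact ⟨Q0, h1, h2⟩
  have hQ0m : Q0.Monic := by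
    have h1 := hQ
    rw [hQ0, Monic, leadingCoeff_mul, leadingCoeff_pow, leadingCoeff_X, one_pow, one_mul] at h1
    exact h1
  have hcop0 : IsCoprime Q0 (X : F[X]) := by
    rw [isCoprime_comm]
    exact (irreducible_X.coprime_iff_not_dvd).mpr hQ0'
  have hd : Q0 ^ e ∣ G := by
    have h1 : Q0 ^ e ∣ X ^ m * G := by
      rw [← h, hQ0, mul_pow, mul_assoc]
      exact Dvd.dvd.mul_left (dvd_mul_right _ _) _
    exact (IsCoprime.pow hcop0).dvd_of_dvd_mul_left h1
  have hu : IsUnit Q0 := by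
    by_contra hnu
    obtain ⟨π, hπ, hπd⟩ := WfDvdMonoid.exists_irreducible_factor hnu hQ0m.ne_zero
    exact hG π hπ ((pow_dvd_pow_of_dvd hπd e).trans hd)
  have hQ01 : Q0 = 1 := hQ0m.eq_one_of_isUnit hu
  rw [hQ01, mul_one] at hQ0
  have hdeg : Q.natDegree = Q.rootMultiplicity 0 := by
    conv_lhs => rw [hQ0]
    rw [natDegree_X_pow]
  have hQX : Q = X ^ Q.natDegree := by rw [hdeg]; exact hQ0
  have hle : e * Q.natDegree ≤ m := by
    have h1 : (X : F[X]) ^ (e * Q.natDegree) ∣ X ^ m * G := by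
      rw [← h]
      conv_rhs => rw [hQX]
      rw [← pow_mul, mul_comm Q.natDegree e]
      exact dvd_mul_right _ _
    have h2 : (X : F[X]) ^ (e * Q.natDegree) ∣ X ^ m :=
      (IsCoprime.pow_left (m := e * Q.natDegree) hcopX.symm).dvd_of_dvd_mul_right h1
    exact (pow_dvd_pow_iff X_ne_zero not_isUnit_X).mp h2
  refine ⟨hQX, hle, ?_⟩
  have h3 : (X : F[X]) ^ (e * Q.natDegree) * R =
      X ^ (e * Q.natDegree) * (X ^ (m - e * Q.natDegree) * G) := by
    rw [← mul_assoc, ← pow_add, Nat.add_sub_cancel' hle, ← h]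
    congr 1
    conv_rhs => rw [hQX]
    rw [← pow_mul, mul_comm Q.natDegree e]
  exact mul_left_cancel₀ (pow_ne_zero _ X_ne_zero) h3

lemma kap_pow {p : ℕ} [hp : Fact p.Prime] {q : ℤ} (hq : q ≠ 0) {f : ℤ[X]} (hf : f ≠ 0) (e : ℕ) :
    kap p q (f ^ e) = e * kap p q f := by
  induction e with
  | zero =>
    have h1 := kap_mul (p := p) hq (f := 1) (g := 1) one_ne_zero one_ne_zero
    rw [one_mul] at h1
    rw [pow_zero, zero_mul]
    omega
  | succ e ih => rw [pow_succ, kap_mul hq (pow_ne_zero e hf) hf, ih]; ring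

/-- The Newton polygon argument: a factor of `P` of multiplicity `e > M` has all its roots
divisible by `q`. -/
lemma repeated_factor (p : ℕ) [hp : Fact p.Prime] (a h M e : ℕ) (he : M < e)
    (P Q R : ℤ[X]) (hQ : Q.Monic) (hR : R.Monic) (hP : P = Q ^ e * R) (χ : (ZMod p)[X])
    (hχM : ∀ π : (ZMod p)[X], Irreducible π → ¬ π ^ (M + 1) ∣ χ)
    (hχ0 : a * χ.rootMultiplicity 0 ≤ M) (hh : h ≤ P.natDegree)
    (hmod : P.map (Int.castRingHom (ZMod p)) = X ^ (P.natDegree - h) * χ)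
    (hnewton : ∀ k, k + h ≤ P.natDegree → ((p : ℤ) ^ a) ^ (P.natDegree - h - k) ∣ P.coeff k)
    (k : ℕ) : ((p : ℤ) ^ a) ^ Q.natDegree ∣ Q.coeff k * ((p : ℤ) ^ a) ^ k := by
  have hp0 : (p : ℤ) ≠ 0 := by exact_mod_cast hp.out.ne_zero
  have hq0 : ((p : ℤ) ^ a) ≠ 0 := pow_ne_zero a hp0
  have hPm : P.Monic := by rw [hP]; exact (hQ.pow e).mul hR
  have hPmne : P.map (Int.castRingHom (ZMod p)) ≠ 0 := (hPm.map _).ne_zero
  have hχne : χ ≠ 0 := by
    rintro rfl
    rw [mul_zero] at hmod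
    exact hPmne hmod
  obtain ⟨G, hG1, hG2⟩ : ∃ G : (ZMod p)[X], χ = X ^ (χ.rootMultiplicity 0) * G ∧ ¬ X ∣ G := by
    obtain ⟨G, h1, h2⟩ := exists_eq_pow_rootMultiplicity_mul_and_not_dvd χ hχne 0
    rw [C_0, sub_zero] at h1 h2
    exact ⟨G, h1, h2⟩
  set s := χ.rootMultiplicity 0 with hs
  have hG0 : G.coeff 0 ≠ 0 := by
    rw [X_dvd_iff] at hG2
    exact hG2
  have hGe : ∀ π : (ZMod p)[X], Irreducible π → ¬ π ^ e ∣ G := by
    intro π hπ hd
    apply hχM π hπ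
    rw [hG1]
    exact Dvd.dvd.mul_left ((pow_dvd_pow π he).trans hd) _
  -- reduction mod p
  have hQb : (Q.map (Int.castRingHom (ZMod p))).Monic := hQ.map _
  have hnQ : (Q.map (Int.castRingHom (ZMod p))).natDegree = Q.natDegree := hQ.natDegree_map _
  have hfac := field_factor (Q.map (Int.castRingHom (ZMod p))) (R.map (Int.castRingHom (ZMod p))) G
    (P.natDegree - h + s) e hQb hGe hG0 (by
      rw [pow_add, mul_assoc, ← hG1, ← hmod, hP]
      simp)
  rw [hnQ] at hfac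
  obtain ⟨-, h2, h3⟩ := hfac
  -- coefficient of R which is a unit
  have hRc : ¬ (p : ℤ) ∣ R.coeff (P.natDegree - h + s - e * Q.natDegree) := by
    intro hd
    have h4 : (R.map (Int.castRingHom (ZMod p))).coeff
        (P.natDegree - h + s - e * Q.natDegree) = 0 := by
      rw [coeff_map]
      simpa using (ZMod.intCast_zmod_eq_zero_iff_dvd _ p).mpr hd
    rw [h3] at h4
    have h5 := coeff_X_pow_mul G (P.natDegree - h + s - e * Q.natDegree) 0
    rw [zero_add] at h5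
    rw [h5] at h4
    exact hG0 h4
  have hkR := kap_le_of_coeff (p := p) a (P.natDegree - h + s - e * Q.natDegree) hRc
  have hkP : a * (P.natDegree - h) ≤ kap p ((p : ℤ) ^ a) P := by
    rw [pow_dvd_content_iff hq0 hPm.ne_zero]
    intro k
    rw [pow_mul]
    by_cases hk : k + h ≤ P.natDegree
    · have h6 := hnewton k hk
      have h7 : ((p : ℤ) ^ a) ^ (P.natDegree - h) =
          ((p : ℤ) ^ a) ^ (P.natDegree - h - k) * ((p : ℤ) ^ a) ^ k := by
        rw [← pow_add]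
        congr 1
        omega
      rw [h7]
      exact mul_dvd_mul_right h6 _
    · apply Dvd.dvd.mul_left
      exact pow_dvd_pow _ (by omega)
  have hkPQ : kap p ((p : ℤ) ^ a) P = e * kap p ((p : ℤ) ^ a) Q + kap p ((p : ℤ) ^ a) R := by
    rw [hP, kap_mul hq0 (pow_ne_zero e hQ.ne_zero) hR.ne_zero, kap_pow hq0 hQ.ne_zero]
  have hfin : a * Q.natDegree ≤ kap p ((p : ℤ) ^ a) Q := by
    by_contra hcon
    push Not at hcon
    have h8 : e * (kap p ((p : ℤ) ^ a) Q + 1) ≤ e * (a * Q.natDegree) :=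
      Nat.mul_le_mul_left e hcon
    have h9 : a * (P.natDegree - h + s - e * Q.natDegree) + e * (a * Q.natDegree) =
        a * (P.natDegree - h) + a * s := by
      obtain ⟨t, ht⟩ := Nat.exists_eq_add_of_le h2
      rw [ht, Nat.add_sub_cancel_left, ← mul_add, ht]
      ring
    have h10 : e * (kap p ((p : ℤ) ^ a) Q + 1) = e * kap p ((p : ℤ) ^ a) Q + e := by ring
    omega
  have h9 := (pow_dvd_content_iff hq0 hQ.ne_zero (a * Q.natDegree)).mp hfin k
  rw [pow_mul] at h9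
  exact h9

end Pool.Agent.LibHW51
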