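import Pool.Agent.LibHW51.Poly

set_option linter.unusedSimpArgs false

open Polynomial

namespace Pool.Agent.LibHW51

lemma aeval_scaled (q : ℤ) (n : ℕ) (Q Qt : ℤ[X]) (hQt : Q.comp (C q * X) = C (q ^ n) * Qt)
    {L : Type*} [Field L] (z : L) : aeval ((q : L) * z) Q = (q : L) ^ n * aeval z Qt := by
  have h1 : aeval z (Q.comp (C q * X)) = aeval z (C (q ^ n) * Qt) := by rw [hQt]
  rw [aeval_comp] at h1
  simpa using h1

/-- If `Q (q X)` is divisible by `q ^ deg Q`, the quotient is monic. -/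
lemma exists_scaled (q : ℤ) (hq : 0 < q) (Q : ℤ[X]) (hQ : Q.Monic)
    (hd : ∀ k, q ^ Q.natDegree ∣ Q.coeff k * q ^ k) :
    ∃ Qt : ℤ[X], Qt.Monic ∧ Q.comp (C q * X) = C (q ^ Q.natDegree) * Qt := by
  obtain ⟨Qt, hQt⟩ : C (q ^ Q.natDegree) ∣ Q.comp (C q * X) := by
    rw [C_dvd_iff_dvd_coeff]
    intro k
    rw [comp_C_mul_X_coeff]
    exact hd k
  have hco : ∀ k, Q.coeff k * q ^ k = q ^ Q.natDegree * Qt.coeff k := by
    intro k
    have h1 : (Q.comp (C q * X)).coeff k = (C (q ^ Q.natDegree) * Qt).coeff k := by rw [hQt]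
    rw [comp_C_mul_X_coeff, coeff_C_mul] at h1
    exact h1
  have hqn : q ^ Q.natDegree ≠ 0 := pow_ne_zero _ hq.ne'
  refine ⟨Qt, ?_, hQt⟩
  have h1 : Qt.coeff Q.natDegree = 1 := by
    have h2 := hco Q.natDegree
    rw [hQ.coeff_natDegree, one_mul] at h2
    have h3 : q ^ Q.natDegree * Qt.coeff Q.natDegree = q ^ Q.natDegree * 1 := by
      rw [← h2, mul_one]
    exact mul_left_cancel₀ hqn h3
  apply monic_of_natDegree_le_of_coeff_eq_one Q.natDegree _ h1
  rw [natDegree_le_iff_coeff_eq_zero]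
  intro N hN
  have h2 := hco N
  rw [coeff_eq_zero_of_natDegree_lt hN, zero_mul] at h2
  rcases mul_eq_zero.mp h2.symm with h3 | h3
  · exact absurd h3 hqn
  · exact h3

lemma aeval_div_eq_zero {K : Type*} [Field K] [CharZero K] (q : ℤ) (hq : 0 < q) (n : ℕ)
    (Q Qt : ℤ[X]) (hQt : Q.comp (C q * X) = C (q ^ n) * Qt) (α : K) (hα : aeval α Q = 0) :
    aeval (α / (q : K)) Qt = 0 := by
  have hq0 : (q : K) ≠ 0 := by exact_mod_cast hq.ne'
  have h1 := aeval_scaled q _ Q Qt hQt (α / (q : K))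
  have h2 : (q : K) * (α / (q : K)) = α := by field_simp
  rw [h2, hα] at h1
  exact (mul_eq_zero.mp h1.symm).resolve_left (pow_ne_zero _ hq0)

/-- A root whose conjugates are all divisible by `q` and have absolute value `q` is `q` times a
root of unity. -/
lemma kronecker_scaled {K : Type*} [Field K] [CharZero K] (q : ℤ) (hq : 0 < q) (Q : ℤ[X])
    (hQ : Q.Monic) (hd : ∀ k, q ^ Q.natDegree ∣ Q.coeff k * q ^ k)
    (hw : ∀ z : ℂ, aeval z Q = 0 → ‖z‖ = (q : ℝ)) (α : K) (hα : aeval α Q = 0) :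
    ∃ n : ℕ, 0 < n ∧ α ^ n = (q : K) ^ n := by
  have hq0 : (q : K) ≠ 0 := by exact_mod_cast hq.ne'
  obtain ⟨Qt, hQtm, hQt⟩ := exists_scaled q hq Q hQ hd
  set x : K := α / (q : K) with hx
  have hαx : α = (q : K) * x := by rw [hx]; field_simp
  have hxroot : aeval x Qt = 0 := aeval_div_eq_zero q hq _ Q Qt hQt α hα
  have hxint : IsIntegral ℤ x := ⟨Qt, hQtm, hxroot⟩
  have hxintQ : IsIntegral ℚ x := hxint.tower_top
  have : FiniteDimensional ℚ (IntermediateField.adjoin ℚ {x}) :=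
    IntermediateField.adjoin.finiteDimensional hxintQ
  have : NumberField (IntermediateField.adjoin ℚ {x}) := { }
  set g : IntermediateField.adjoin ℚ {x} := IntermediateField.AdjoinSimple.gen ℚ x with hg
  have hgx : algebraMap (IntermediateField.adjoin ℚ {x}) K g = x :=
    IntermediateField.AdjoinSimple.algebraMap_gen ℚ x
  have hgroot : aeval g Qt = 0 := by
    apply (algebraMap (IntermediateField.adjoin ℚ {x}) K).injective
    rw [map_zero, ← aeval_algebraMap_apply, hgx]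
    exact hxroot
  have hgint : IsIntegral ℤ g := ⟨Qt, hQtm, hgroot⟩
  obtain ⟨n, hn, hgn⟩ := NumberField.Embeddings.pow_eq_one_of_norm_eq_one
    (IntermediateField.adjoin ℚ {x}) ℂ hgint (by
      intro φ
      have h1 : aeval (φ g) Qt = 0 := by
        have h2 : φ (aeval g Qt) = 0 := by rw [hgroot, map_zero]
        rw [← h2, aeval_def, aeval_def, hom_eval₂]
        congr 1
        exact RingHom.ext_int _ _
      have h3 := hw ((q : ℂ) * φ g) (by rw [aeval_scaled q _ Q Qt hQt, h1, mul_zero])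
      rw [norm_mul, Complex.norm_intCast, abs_of_pos (by exact_mod_cast hq)] at h3
      have hqr : (q : ℝ) ≠ 0 := by exact_mod_cast hq.ne'
      have h4 : (q : ℝ) * ‖φ g‖ = q * 1 := by rw [h3, mul_one]
      exact mul_left_cancel₀ hqr h4)
  refine ⟨n, hn, ?_⟩
  have hxn : x ^ n = 1 := by
    rw [← hgx, ← map_pow, hgn, map_one]
  rw [hαx, mul_pow, hxn, mul_one]

/-- A root of `P` of multiplicity `≥ e ≥ 1` is a root of a monic `Q` with `Q ^ e ∣ P`. -/
lemma exists_pow_dvd {K : Type*} [Field K] [CharZero K] (α : K) (Q : ℤ[X]) (hQm : Q.Monic)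
    (hQdvd : ∀ P : ℤ[X], aeval α P = 0 → Q ∣ P)
    (hQ1 : (Q.map (algebraMap ℤ K)).rootMultiplicity α = 1) (e : ℕ) :
    ∀ P : ℤ[X], P.Monic → e ≤ (P.map (algebraMap ℤ K)).rootMultiplicity α →
      ∃ R : ℤ[X], R.Monic ∧ P = Q ^ e * R := by
  induction e with
  | zero =>
    intro P hP _
    exact ⟨P, hP, by rw [pow_zero, one_mul]⟩
  | succ e ih =>
    intro P hP he
    have hPne : P.map (algebraMap ℤ K) ≠ 0 := (hP.map _).ne_zero
    have h1 : (P.map (algebraMap ℤ K)).IsRoot α := by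
      rw [← rootMultiplicity_pos hPne]
      omega
    have hPα : aeval α P = 0 := by
      rw [IsRoot.def, eval_map_algebraMap] at h1
      exact h1
    obtain ⟨P1, hP1⟩ := hQdvd P hPα
    have hP1m : P1.Monic := by
      apply Monic.of_mul_monic_left hQm
      rw [← hP1]
      exact hP
    have h2 : (P.map (algebraMap ℤ K)).rootMultiplicity α =
        1 + (P1.map (algebraMap ℤ K)).rootMultiplicity α := by
      rw [← hQ1, hP1, Polynomial.map_mul, rootMultiplicity_mul]
      rw [← Polynomial.map_mul, ← hP1]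
      exact hPne
    obtain ⟨R, hR, hR'⟩ := ih P1 hP1m (by omega)
    exact ⟨R, hR, by rw [hP1, hR', pow_succ]; ring⟩

lemma minpoly_rootMultiplicity {K : Type*} [Field K] [CharZero K] (α : K) (hint : IsIntegral ℤ α) :
    ((minpoly ℤ α).map (algebraMap ℤ K)).rootMultiplicity α = 1 := by
  set Q := minpoly ℤ α with hQdef
  have hQm : Q.Monic := minpoly.monic hint
  have hQα : aeval α Q = 0 := minpoly.aeval ℤ α
  have hQne : Q.map (algebraMap ℤ K) ≠ 0 := (hQm.map _).ne_zero
  have hroot : (Q.map (algebraMap ℤ K)).IsRoot α := by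
    rw [IsRoot.def, eval_map_algebraMap]
    exact hQα
  have h1 := (rootMultiplicity_pos hQne).mpr hroot
  by_contra hcon
  have h2 : 1 < (Q.map (algebraMap ℤ K)).rootMultiplicity α := by omega
  obtain ⟨-, hr2⟩ := (one_lt_rootMultiplicity_iff_isRoot (t := α) hQne).mp h2
  have h0 : aeval α (derivative Q) = 0 := by
    rw [IsRoot.def, derivative_map, eval_map_algebraMap] at hr2
    exact hr2
  have h3 := minpoly.isIntegrallyClosed_dvd hint h0
  have hdeg : 0 < Q.natDegree := minpoly.natDegree_pos hint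
  have h4 : derivative Q ≠ 0 := by
    intro h5
    have h6 := derivative_eq_zero.mp h5
    omega
  have h5 : Q.natDegree ≤ (derivative Q).natDegree := natDegree_le_of_dvd h3 h4
  have h6 := natDegree_derivative_lt (p := Q) hdeg.ne'
  omega

/-- Under the Newton polygon and multiplicity conditions every root of `P` of multiplicity greater
than `M` is `q` times an algebraic integer, and `q` times a root of unity if all roots have
absolute value `q`. -/
theorem multiple_root (p : ℕ) [hp : Fact p.Prime] (a h M : ℕ)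
    (P : ℤ[X]) (hPm : P.Monic) (hh : h ≤ P.natDegree) (χ : (ZMod p)[X])
    (hχM : ∀ π : (ZMod p)[X], Irreducible π → ¬ π ^ (M + 1) ∣ χ)
    (hχ0 : a * χ.rootMultiplicity 0 ≤ M)
    (hmod : P.map (Int.castRingHom (ZMod p)) = X ^ (P.natDegree - h) * χ)
    (hnewton : ∀ k, k + h ≤ P.natDegree → ((p : ℤ) ^ a) ^ (P.natDegree - h - k) ∣ P.coeff k)
    {K : Type*} [Field K] [CharZero K] (α : K)
    (hα : M < (P.map (algebraMap ℤ K)).rootMultiplicity α) :
    IsIntegral ℤ (α / (p : K) ^ a) ∧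
    ((∀ z : ℂ, aeval z P = 0 → ‖z‖ = (p : ℝ) ^ a) →
      ∃ n : ℕ, 0 < n ∧ α ^ n = ((p : K) ^ a) ^ n) := by
  have hPne : P.map (algebraMap ℤ K) ≠ 0 := (hPm.map _).ne_zero
  have h1 : (P.map (algebraMap ℤ K)).IsRoot α := by
    rw [← rootMultiplicity_pos hPne]
    omega
  have hPα : aeval α P = 0 := by
    rw [IsRoot.def, eval_map_algebraMap] at h1
    exact h1
  have hint : IsIntegral ℤ α := ⟨P, hPm, hPα⟩
  set Q := minpoly ℤ α with hQdef
  have hQm : Q.Monic := minpoly.monic hint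
  have hQα : aeval α Q = 0 := minpoly.aeval ℤ α
  obtain ⟨R, hRm, hPQ⟩ := exists_pow_dvd α Q hQm (fun P hP => minpoly.isIntegrallyClosed_dvd hint hP)
    (minpoly_rootMultiplicity α hint) (M + 1) P hPm hα
  have hd := repeated_factor p a h M (M + 1) (Nat.lt_succ_self M) P Q R hQm hRm hPQ χ hχM hχ0 hh
    hmod hnewton
  have hp0 : (0 : ℤ) < (p : ℤ) ^ a := by
    have : (0 : ℤ) < p := by exact_mod_cast hp.out.pos
    positivity
  constructor
  · obtain ⟨Qt, hQtm, hQt⟩ := exists_scaled ((p : ℤ) ^ a) hp0 Q hQm hd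
    have h1 := aeval_div_eq_zero ((p : ℤ) ^ a) hp0 _ Q Qt hQt α hQα
    have h2 : (((p : ℤ) ^ a : ℤ) : K) = (p : K) ^ a := by push_cast; rfl
    rw [h2] at h1
    exact ⟨Qt, hQtm, h1⟩
  · intro hw
    obtain ⟨n, hn, hn'⟩ := kronecker_scaled ((p : ℤ) ^ a) hp0 Q hQm hd (by
      intro z hz
      have h1 : aeval z P = 0 := by rw [hPQ, map_mul, map_pow, hz]; simp
      rw [hw z h1]
      push_cast
      rfl) α hQα
    refine ⟨n, hn, ?_⟩
    rw [hn']
    push_cast
    rfl

end Pool.Agent.LibHW51
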